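import Pool.Agent.W477.GM.Stms

set_option maxHeartbeats 1000000

/-! Project GM, task ZFI: the axiom of infinity is forced. -/

namespace Pool.Agent.W477.GM.W320

open Pool.Agent.W477.GM

theorem omega_mem (a : PSet.{0}) : a ∈ PSet.omega.{0} ↔ ∃ k : ℕ, PSet.Equiv.{0, 0} a (PSet.ofNat.{0} k) := by
  constructor
  · rintro ⟨⟨k⟩, hk⟩
    exact ⟨k, hk⟩
  · rintro ⟨k, hk⟩
    exact ⟨⟨k⟩, hk⟩

theorem succ_mem (a : PSet.{0}) (k : ℕ) :
    a ∈ PSet.ofNat.{0} (k + 1) ↔ PSet.Equiv.{0, 0} a (PSet.ofNat.{0} k) ∨ a ∈ PSet.ofNat.{0} k :=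
  PSet.mem_insert_iff

theorem zfi_holds (h : P_EQ) (h2 : P_FC) (h3 : P_HS) (h6 : P_PR) : P_ZFI := by
  intro P _ _ S hS v hv p
  have E : EqF P := h P
  have F : FcF P (HS S) := h2 P (HS S)
  have H : HsF P S := h3 P S hS
  have R : PrF P := h6 P
  unfold Fm.axInf
  rw [F.ex]
  intro q hq
  refine ⟨q, le_rfl, chk PSet.omega.{0}, H.chk _, ?_⟩
  rw [F.and]
  constructor
  · rw [F.ex]
    intro q1 hq1
    refine ⟨q1, le_rfl, chk (PSet.ofNat.{0} 0), H.chk _, ?_⟩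
    rw [F.and]
    constructor
    · show fmem (chk (PSet.ofNat.{0} 0)) (chk PSet.omega.{0}) q1
      rw [R.chk_mem, omega_mem]
      exact ⟨0, PSet.Equiv.refl _⟩
    · intro x hx
      rw [F.neg]
      intro q2 hq2 hc
      have hc' : fmem x (chk (PSet.ofNat.{0} 0)) q2 := hc
      rw [R.mem_chk] at hc'
      obtain ⟨r, _, a, ha, _⟩ := hc' q2 le_rfl
      exact (PSet.notMem_empty a) ha
  · intro x hx q1 hq1 hm
    have hm' : fmem x (chk PSet.omega.{0}) q1 := hm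
    rw [R.mem_chk] at hm'
    rw [F.ex]
    intro q2 hq2
    obtain ⟨r, hr, a, ha, hxa⟩ := hm' q2 hq2
    obtain ⟨k, hk⟩ := (omega_mem a).1 ha
    have hxk : feq x (chk (PSet.ofNat.{0} k)) r :=
      E.trans _ _ _ _ hxa ((R.chk_eq a (PSet.ofNat.{0} k) r).2 hk)
    refine ⟨r, hr, chk (PSet.ofNat.{0} (k + 1)), H.chk _, ?_⟩
    rw [F.and]
    constructor
    · show fmem (chk (PSet.ofNat.{0} (k + 1))) (chk PSet.omega.{0}) r
      rw [R.chk_mem, omega_mem]
      exact ⟨k + 1, PSet.Equiv.refl _⟩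
    · intro w hw
      rw [F.iff]
      intro q3 hq3
      rw [F.or]
      show fmem w (chk (PSet.ofNat.{0} (k + 1))) q3 ↔
        ∀ q, q ≤ q3 → ∃ r, r ≤ q ∧ (fmem w x r ∨ feq w x r)
      constructor
      · intro h1 q4 hq4
        rw [R.mem_chk] at h1
        obtain ⟨r4, hr4, a', ha', hwa⟩ := h1 q4 hq4
        have hr4r : r4 ≤ r := hr4.trans (hq4.trans hq3)
        have hxr : feq x (chk (PSet.ofNat.{0} k)) r4 := E.mono _ _ _ _ hr4r hxk
        have hxr' := E.symm _ _ _ hxr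
        refine ⟨r4, hr4, ?_⟩
        rcases (succ_mem a' k).1 ha' with h5 | h5
        · right
          exact E.trans _ _ _ _ (E.trans _ _ _ _ hwa ((R.chk_eq _ _ r4).2 h5)) hxr'
        · left
          exact E.mcongr _ _ _ _ _ (E.symm _ _ _ hwa) hxr' ((R.chk_mem _ _ r4).2 h5)
      · intro h1
        apply E.mdense
        intro q4 hq4
        obtain ⟨r4, hr4, h5⟩ := h1 q4 hq4
        have hr4r : r4 ≤ r := hr4.trans (hq4.trans hq3)
        have hxr : feq x (chk (PSet.ofNat.{0} k)) r4 := E.mono _ _ _ _ hr4r hxk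
        refine ⟨r4, hr4, ?_⟩
        rw [R.mem_chk]
        rcases h5 with h5 | h5
        · have h6 : fmem w (chk (PSet.ofNat.{0} k)) r4 := E.mcongr _ _ _ _ _ (E.refl _ _) hxr h5
          rw [R.mem_chk] at h6
          intro q5 hq5
          obtain ⟨r5, hr5, b, hb, hwb⟩ := h6 q5 hq5
          exact ⟨r5, hr5, b, (succ_mem b k).2 (Or.inr hb), hwb⟩
        · intro q5 hq5
          refine ⟨q5, le_rfl, PSet.ofNat.{0} k, (succ_mem _ k).2 (Or.inl (PSet.Equiv.refl _)), ?_⟩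
          exact E.mono _ _ _ _ hq5 (E.trans _ _ _ _ h5 hxr)

end Pool.Agent.W477.GM.W320
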